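import Mathlib

set_option autoImplicit false

open Filter Topology Asymptotics Complex

namespace Pool.Agent.H44Z.Ball

/-- Phragmen-Lindelof: decay on the positive axis upgrades to a uniform bound. -/
theorem pl_decay {G : ℂ → ℂ} {M a : ℝ} (ha : 0 ≤ a) (hd : DiffContOnCl ℂ G {w | 0 < w.re})
    (hM : ∀ w : ℂ, ‖G w‖ ≤ M)
    (hO : (fun x : ℝ => G x) =O[atTop] fun x : ℝ => Real.exp (-(a * x))) {x : ℝ} (hx : 0 ≤ x) :
    ‖G x‖ ≤ M * Real.exp (-(a * x)) := by
  have hM0 : 0 ≤ M := (norm_nonneg _).trans (hM 0)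
  have hn : ∀ w : ℂ, ‖G w * exp (a * w)‖ = ‖G w‖ * Real.exp (a * w.re) := by
    intro w
    rw [norm_mul, Complex.norm_exp]
    simp
  have key : ‖G x * exp (a * (x : ℂ))‖ ≤ M := by
    refine PhragmenLindelof.right_half_plane_of_bounded_on_real
      (f := fun w => G w * exp (a * w)) ?_ ⟨1, by norm_num, a, ?_⟩ ?_ ?_ (by simpa using hx)
    · exact ⟨hd.1.mul (by fun_prop), hd.2.mul (by fun_prop)⟩
    · refine IsBigO.of_bound M (Eventually.of_forall fun w => ?_)
      rw [hn, Real.rpow_one, Real.norm_of_nonneg (Real.exp_pos _).le]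
      have : a * w.re ≤ a * ‖w‖ := mul_le_mul_of_nonneg_left (Complex.re_le_norm w) ha
      exact mul_le_mul (hM w) (Real.exp_le_exp.2 this) (Real.exp_pos _).le hM0
    · obtain ⟨C, hC⟩ := hO.bound
      refine ⟨C, ?_⟩
      rw [eventually_map]
      filter_upwards [hC] with y hy
      rw [hn, Real.norm_of_nonneg (Real.exp_pos _).le] at *
      simp only [ofReal_re]
      calc ‖G y‖ * Real.exp (a * y) ≤ C * Real.exp (-(a * y)) * Real.exp (a * y) := by gcongr
        _ = C := by rw [mul_assoc, ← Real.exp_add]; simp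
    · intro y
      rw [hn]
      simpa using hM _
  rw [hn] at key
  simp only [ofReal_re] at key
  calc ‖G x‖ = ‖G x‖ * Real.exp (a * x) * Real.exp (-(a * x)) := by
        rw [mul_assoc, ← Real.exp_add]; simp
    _ ≤ _ := by gcongr

theorem prod_sub_prod_isBigO {ι α : Type*} {l : Filter α} (s : Finset ι) (a b : ι → α → ℂ)
    (e : α → ℝ) (ha : ∀ i, a i =O[l] fun _ => (1 : ℝ)) (hb : ∀ i, b i =O[l] fun _ => (1 : ℝ))
    (hab : ∀ i, (fun x => a i x - b i x) =O[l] e) :
    (fun x => ∏ i ∈ s, a i x - ∏ i ∈ s, b i x) =O[l] e ∧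
      (fun x => ∏ i ∈ s, b i x) =O[l] fun _ => (1 : ℝ) := by
  classical
  induction s using Finset.induction_on with
  | empty => exact ⟨by simpa using isBigO_zero _ _, by simpa using isBigO_const_const (1 : ℂ) (one_ne_zero (α := ℝ)) l⟩
  | insert i s hi ih =>
    simp only [Finset.prod_insert hi]
    refine ⟨?_, by simpa using (hb i).mul ih.2⟩
    have h1 := (ha i).mul ih.1
    have h2 := (hab i).mul ih.2
    simp only [one_mul, mul_one] at h1 h2
    refine (h1.add h2).congr_left fun x => by ring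

theorem det_sub_det_isBigO {ι α : Type*} [Fintype ι] [DecidableEq ι] {l : Filter α}
    (a b : α → Matrix ι ι ℂ)
    (e : α → ℝ) (ha : ∀ i j, (fun x => a x i j) =O[l] fun _ => (1 : ℝ))
    (hb : ∀ i j, (fun x => b x i j) =O[l] fun _ => (1 : ℝ))
    (hab : ∀ i j, (fun x => a x i j - b x i j) =O[l] e) :
    (fun x => (a x).det - (b x).det) =O[l] e := by
  simp only [Matrix.det_apply', ← Finset.sum_sub_distrib, ← mul_sub]
  refine IsBigO.fun_sum fun σ _ => ?_
  exact (prod_sub_prod_isBigO Finset.univ (fun i x => a x (σ i) i) (fun i x => b x (σ i) i) e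
    (fun i => ha _ _) (fun i => hb _ _) (fun i => hab _ _)).1.const_mul_left _

theorem norm_det_le {ι : Type*} [Fintype ι] [DecidableEq ι] (a : Matrix ι ι ℂ) (c : ι → ℝ)
    (h : ∀ i j, ‖a i j‖ ≤ c j) :
    ‖a.det‖ ≤ (Fintype.card (Equiv.Perm ι) : ℝ) * ∏ j, c j := by
  rw [Matrix.det_apply']
  refine (norm_sum_le _ _).trans ?_
  rw [← nsmul_eq_mul, ← Finset.card_univ]
  refine Finset.sum_le_card_nsmul _ _ _ fun σ _ => ?_
  rw [norm_mul, norm_prod]
  have : ‖((Equiv.Perm.sign σ : ℤ) : ℂ)‖ = 1 := by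
    rcases Int.units_eq_one_or (Equiv.Perm.sign σ) with h | h <;> simp [h]
  rw [this, one_mul]
  exact Finset.prod_le_prod (fun _ _ => norm_nonneg _) fun j _ => h _ _

section core

variable {A : Type*} [NormedCommRing A] (Φ : ℕ → ℂ → A →+* ℂ) (W : ℕ → ℝ)

/-- The ideal of elements with prescribed exponential decay along each curve. -/
def decayIdeal (hb : ∀ l w a, ‖Φ l w a‖ ≤ ‖a‖) : Ideal A where
  carrier := {a | ∀ l, (fun x : ℝ => Φ l x a) =O[atTop] fun x : ℝ => Real.exp (-(W l * x))}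
  add_mem' := by
    intro a b ha hb l
    simpa using (ha l).add (hb l)
  zero_mem' := by
    intro l
    simpa using isBigO_zero _ _
  smul_mem' := by
    intro c a ha l
    have h1 : (fun x : ℝ => Φ l x c) =O[atTop] fun _ => (1 : ℝ) :=
      IsBigO.of_bound ‖c‖ (Eventually.of_forall fun x => by simpa using hb l x c)
    simpa using h1.mul (ha l)

theorem continuous_ev {φ : A →+* ℂ} (hb : ∀ a, ‖φ a‖ ≤ ‖a‖) : Continuous φ :=
  (AddMonoidHomClass.lipschitz_of_bound φ 1 (by simpa using hb)).continuous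

theorem decayIdeal_closed (hb : ∀ l w a, ‖Φ l w a‖ ≤ ‖a‖)
    (hd : ∀ l a, DiffContOnCl ℂ (fun w => Φ l w a) {w | 0 < w.re}) (hW : ∀ l, 0 ≤ W l) :
    IsClosed (decayIdeal Φ W hb : Set A) := by
  have : (decayIdeal Φ W hb : Set A) =
      ⋂ l, ⋂ x : ℝ, ⋂ _ : 0 ≤ x, {a | ‖Φ l x a‖ ≤ ‖a‖ * Real.exp (-(W l * x))} := by
    ext a
    simp only [Set.mem_iInter, Set.mem_ofPred_eq, SetLike.mem_coe]
    constructor
    · intro ha l x hx
      exact pl_decay (hW l) (hd l a) (fun w => hb l w a) (ha l) hx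
    · intro ha l
      refine IsBigO.of_bound ‖a‖ ?_
      filter_upwards [eventually_ge_atTop 0] with x hx
      rw [Real.norm_of_nonneg (Real.exp_pos _).le]
      exact ha l x hx
  rw [this]
  refine isClosed_iInter fun l => isClosed_iInter fun x => isClosed_iInter fun _ => ?_
  exact isClosed_le (continuous_ev (hb l x)).norm (by fun_prop)

theorem det_decay (Ψ : ℝ → A →+* ℂ) (hb : ∀ l w a, ‖Φ l w a‖ ≤ ‖a‖) (hΨ : ∀ x a, ‖Ψ x a‖ ≤ ‖a‖)
    (hd : ∀ l a, DiffContOnCl ℂ (fun w => Φ l w a) {w | 0 < w.re}) (hW : ∀ l, 0 ≤ W l)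
    {k : ℕ} {η : ℝ} (hη : 0 ≤ η)
    (hS : ∀ (l : Fin (k + 1)) a (x : ℝ), 0 < x →
      ‖Φ l x a - Ψ x a‖ ≤ 2 * ‖a‖ * Real.exp (-(η * x)))
    (f : Fin k → A) (hf : ∀ i, f i ∈ decayIdeal Φ W hb)
    (h : Fin (k + 1) → A) (hh : ∀ m, h m ∈ closure (Ideal.span (Set.range f) : Set A))
    {x : ℝ} (hx : 0 ≤ x) :
    ‖(Matrix.of fun l m : Fin (k + 1) => Φ l x (h m)).det‖ ≤
      ((Fintype.card (Equiv.Perm (Fin (k + 1))) : ℝ) * ∏ m, ‖h m‖) *
        Real.exp (-((∑ l : Fin (k + 1), W l + η) * x)) := by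
  have hcl : IsClosed {h : Fin (k + 1) → A |
      ‖(Matrix.of fun l m : Fin (k + 1) => Φ l x (h m)).det‖ ≤
      ((Fintype.card (Equiv.Perm (Fin (k + 1))) : ℝ) * ∏ m, ‖h m‖) *
        Real.exp (-((∑ l : Fin (k + 1), W l + η) * x))} := by
    refine isClosed_le (Continuous.norm (Continuous.matrix_det ?_)) (by fun_prop)
    refine continuous_matrix fun l m => ?_
    exact (continuous_ev (hb l x)).comp (continuous_apply m)
  have hmem : h ∈ closure (Set.pi Set.univ
      fun _ : Fin (k + 1) => (Ideal.span (Set.range f) : Set A)) := by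
    rw [closure_pi_set]
    exact fun m _ => hh m
  refine closure_minimal (fun h hh => ?_) hcl hmem
  clear hmem hcl
  have hu : ∀ m, ∃ u : Fin k → A, ∑ i, u i * f i = h m := fun m =>
    Ideal.mem_span_range_iff_exists_fun.1 (hh m (Set.mem_univ _))
  choose u hu using hu
  refine pl_decay (G := fun w => (Matrix.of fun l m : Fin (k + 1) => Φ l w (h m)).det)
    (a := ∑ l : Fin (k + 1), W l + η)
    (add_nonneg (Finset.sum_nonneg fun l _ => hW _) hη) ?_ ?_ ?_ hx
  · simp only [Matrix.det_apply', Matrix.of_apply]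
    constructor
    · refine DifferentiableOn.fun_sum fun σ _ => DifferentiableOn.const_mul ?_ _
      exact DifferentiableOn.fun_finsetProd fun m _ => (hd _ _).1
    · refine continuousOn_finsetSum _ fun σ _ => ContinuousOn.mul continuousOn_const ?_
      exact continuousOn_finsetProd _ fun m _ => (hd _ _).2
  · intro w
    exact norm_det_le _ _ fun l m => hb _ _ _
  · set F : ℝ → Matrix (Fin (k + 1)) (Fin (k + 1)) ℂ := fun x => Matrix.of fun l i =>
      (Real.exp (W l * x) : ℂ) * Φ l x ((Fin.cons 0 f : Fin (k + 1) → A) i) with hF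
    set U : ℝ → Matrix (Fin (k + 1)) (Fin (k + 1)) ℂ := fun x => Matrix.of fun i m =>
      Ψ x ((Fin.cons 0 (u m) : Fin (k + 1) → A) i) with hU
    set N : ℝ → Matrix (Fin (k + 1)) (Fin (k + 1)) ℂ := fun x => Matrix.of fun l m =>
      (Real.exp (W l * x) : ℂ) * Φ l x (h m) with hN
    have hdec : ∀ a ∈ decayIdeal Φ W hb, ∀ l,
        (fun x : ℝ => (Real.exp (W l * x) : ℂ) * Φ l x a) =O[atTop] fun _ => (1 : ℝ) := by
      intro a ha l
      have h1 : (fun x : ℝ => (Real.exp (W l * x) : ℂ)) =O[atTop] fun x => Real.exp (W l * x) :=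
        IsBigO.of_bound 1 (Eventually.of_forall fun x => by
          rw [Complex.norm_real, one_mul])
      refine (h1.mul (ha l)).congr_right fun x => ?_
      rw [← Real.exp_add]; simp
    have hFU : ∀ x l m, (F x * U x) l m =
        ∑ i, (Real.exp (W l * x) : ℂ) * Φ l x (f i) * Ψ x (u m i) := by
      intro x l m
      simp [Matrix.mul_apply, hF, hU, Fin.sum_univ_succ]
    have hdet0 : ∀ x, (F x * U x).det = 0 := by
      intro x
      rw [Matrix.det_mul, Matrix.det_eq_zero_of_column_eq_zero (A := F x) 0 (by simp [hF]),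
        zero_mul]
    have hΨO : ∀ a, (fun x : ℝ => Ψ x a) =O[atTop] fun _ => (1 : ℝ) := fun a =>
      IsBigO.of_bound ‖a‖ (Eventually.of_forall fun x => by simpa using hΨ x a)
    have hhm : ∀ m, h m ∈ decayIdeal Φ W hb := fun m => by
      rw [← hu m]
      exact Ideal.sum_mem _ fun i _ => Ideal.mul_mem_left _ _ (hf i)
    have key := det_sub_det_isBigO (l := atTop) N (fun x => F x * U x)
      (fun x => Real.exp (-(η * x))) (fun l m => hdec _ (hhm m) l)
      (fun l m => by
        simp only [hFU]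
        exact IsBigO.fun_sum fun i _ =>
          ((hdec _ (hf i) l).mul (hΨO (u m i))).congr_right fun _ => one_mul _)
      (fun l m => by
        have : ∀ x : ℝ, N x l m - (F x * U x) l m =
            ∑ i, (Real.exp (W l * x) : ℂ) * Φ l x (f i) * (Φ l x (u m i) - Ψ x (u m i)) := by
          intro x
          rw [hFU]
          simp only [hN, Matrix.of_apply, ← hu m, map_sum, map_mul, Finset.mul_sum,
            ← Finset.sum_sub_distrib]
          exact Finset.sum_congr rfl fun i _ => by ring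
        simp only [this]
        refine IsBigO.fun_sum fun i _ => ?_
        have h2 : (fun x : ℝ => Φ l x (u m i) - Ψ x (u m i)) =O[atTop]
            fun x => Real.exp (-(η * x)) := by
          refine IsBigO.of_bound (2 * ‖u m i‖) ?_
          filter_upwards [eventually_gt_atTop 0] with x hx
          rw [Real.norm_of_nonneg (Real.exp_pos _).le]
          exact hS l _ x hx
        exact ((hdec _ (hf i) l).mul h2).congr_right fun _ => one_mul _)
    simp only [hdet0, sub_zero] at key
    have h3 : (fun x : ℝ => (Real.exp (-((∑ l : Fin (k + 1), W l) * x)) : ℂ)) =O[atTop]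
        fun x => Real.exp (-((∑ l : Fin (k + 1), W l) * x)) :=
      IsBigO.of_bound 1 (Eventually.of_forall fun x => by rw [Complex.norm_real, one_mul])
    refine (h3.mul key).congr (fun x => ?_) (fun x => ?_)
    · have := Matrix.det_mul_column (fun l : Fin (k + 1) => (Real.exp (W l * x) : ℂ))
        (Matrix.of fun l m : Fin (k + 1) => Φ l x (h m))
      simp only [Matrix.of_apply] at this
      rw [hN]
      simp only
      rw [this, ← mul_assoc, ← Complex.ofReal_prod, ← Real.exp_sum, ← Complex.ofReal_mul,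
        ← Real.exp_add, ← Finset.sum_mul]
      simp
    · rw [← Real.exp_add]; ring_nf

end core

end Pool.Agent.H44Z.Ball
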