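import Mathlib
import Pool.Agent.H44Z.BallCore

set_option autoImplicit false

open Filter Topology Asymptotics Complex Metric

noncomputable section

namespace Pool.Agent.H44Z.Ball

variable {n : ℕ} (i0 i1 : Fin n)

/-- The point with coordinates `a`, `b` in the slots `i0`, `i1` and zero elsewhere. -/
def pt (a b : ℂ) : EuclideanSpace ℂ (Fin n) :=
  a • EuclideanSpace.single i0 (1 : ℂ) + b • EuclideanSpace.single i1 (1 : ℂ)

theorem pt_zero (h : i0 ≠ i1) (a b : ℂ) : pt i0 i1 a b i0 = a := by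
  simp [pt, h]

theorem pt_one (h : i0 ≠ i1) (a b : ℂ) : pt i0 i1 a b i1 = b := by
  simp [pt, h.symm]

theorem norm_pt_sq (h : i0 ≠ i1) (a b : ℂ) : ‖pt i0 i1 a b‖ ^ 2 = ‖a‖ ^ 2 + ‖b‖ ^ 2 := by
  rw [EuclideanSpace.norm_sq_eq]
  rw [Finset.sum_eq_add_of_mem i0 i1 (Finset.mem_univ _) (Finset.mem_univ _) h]
  · rw [pt_zero _ _ h, pt_one _ _ h]
  · intro c _ hc
    simp [pt, hc.1, hc.2]

/-- The discs through the boundary point. -/
def crv (w μ : ℂ) : EuclideanSpace ℂ (Fin n) := pt i0 i1 (w / (w + 2)) (2 / (w + 2) * μ)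

theorem add_two_ne {w : ℂ} (hw : 0 ≤ w.re) : w + 2 ≠ 0 := by
  intro h
  have := congrArg Complex.re h
  simp at this
  linarith

theorem norm_crv_sq (h : i0 ≠ i1) {w μ : ℂ} (hw : 0 ≤ w.re) (hμ : ‖μ‖ ≤ 1) :
    ‖crv i0 i1 w μ‖ ^ 2 ≤ 1 - 4 * w.re / ‖w + 2‖ ^ 2 := by
  have hne := add_two_ne hw
  have hpos : 0 < ‖w + 2‖ ^ 2 := by positivity
  have h1 : ‖w + 2‖ ^ 2 = ‖w‖ ^ 2 + 4 * w.re + 4 := by
    rw [Complex.sq_norm, Complex.sq_norm, Complex.normSq_apply, Complex.normSq_apply]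
    simp
    ring
  have h2 : ‖μ‖ ^ 2 ≤ 1 := by nlinarith [norm_nonneg μ]
  rw [crv, norm_pt_sq _ _ h, norm_mul, norm_div, norm_div, mul_pow, div_pow, div_pow]
  have h3 : ‖(2 : ℂ)‖ ^ 2 = 4 := by simp; norm_num
  rw [h3]
  have h4 : 4 / ‖w + 2‖ ^ 2 * ‖μ‖ ^ 2 ≤ 4 / ‖w + 2‖ ^ 2 := by
    have : 0 ≤ 4 / ‖w + 2‖ ^ 2 := by positivity
    nlinarith
  have h5 : ‖w‖ ^ 2 / ‖w + 2‖ ^ 2 + 4 / ‖w + 2‖ ^ 2 = 1 - 4 * w.re / ‖w + 2‖ ^ 2 := by
    field_simp
    rw [h1]; ring
  linarith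

theorem crv_mem_closedBall (h : i0 ≠ i1) {w μ : ℂ} (hw : 0 ≤ w.re) (hμ : ‖μ‖ ≤ 1) :
    crv i0 i1 w μ ∈ closedBall (0 : EuclideanSpace ℂ (Fin n)) 1 := by
  have h1 := norm_crv_sq i0 i1 h hw hμ
  have h2 : 0 ≤ 4 * w.re / ‖w + 2‖ ^ 2 := by positivity
  rw [mem_closedBall_zero_iff]
  nlinarith [norm_nonneg (crv i0 i1 w μ)]

theorem crv_mem_ball (h : i0 ≠ i1) {w μ : ℂ} (hw : 0 < w.re) (hμ : ‖μ‖ ≤ 1) :
    crv i0 i1 w μ ∈ ball (0 : EuclideanSpace ℂ (Fin n)) 1 := by
  have h1 := norm_crv_sq i0 i1 h hw.le hμ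
  have hne := add_two_ne hw.le
  have h2 : 0 < 4 * w.re / ‖w + 2‖ ^ 2 := by positivity
  rw [mem_ball_zero_iff]
  nlinarith [norm_nonneg (crv i0 i1 w μ)]

theorem norm_exp_le {δ : ℝ} (hδ : 0 ≤ δ) {w : ℂ} (hw : 0 ≤ w.re) : ‖exp (-(δ * w))‖ ≤ 1 := by
  rw [Complex.norm_exp, Real.exp_le_one_iff]
  simpa using mul_nonneg hδ hw

open Classical in
/-- A total map into the closed ball. -/
def toBall (x : EuclideanSpace ℂ (Fin n)) : closedBall (0 : EuclideanSpace ℂ (Fin n)) 1 :=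
  if h : x ∈ closedBall (0 : EuclideanSpace ℂ (Fin n)) 1 then ⟨x, h⟩
  else ⟨0, mem_closedBall_self zero_le_one⟩

theorem toBall_of_mem {x : EuclideanSpace ℂ (Fin n)}
    (h : x ∈ closedBall (0 : EuclideanSpace ℂ (Fin n)) 1) : toBall x = ⟨x, h⟩ := dif_pos h

theorem continuousOn_toBall :
    ContinuousOn (toBall (n := n)) (closedBall (0 : EuclideanSpace ℂ (Fin n)) 1) := by
  rw [continuousOn_iff_continuous_domRestrict]
  convert continuous_id using 1
  funext x
  exact toBall_of_mem x.2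

/-- The generators. -/
def gen (j : ℕ) (t : ℝ) (x : EuclideanSpace ℂ (Fin n)) : ℂ :=
  x i1 ^ j * (1 - x i0) * exp (-(t * ((1 + x i0) / (1 - x i0))))

theorem coord_le {x : EuclideanSpace ℂ (Fin n)}
    (h : x ∈ closedBall (0 : EuclideanSpace ℂ (Fin n)) 1) (i : Fin n) : ‖x i‖ ≤ 1 :=
  (PiLp.norm_apply_le x i).trans (mem_closedBall_zero_iff.1 h)

theorem re_cayley {z : ℂ} (hz : ‖z‖ ≤ 1) : 0 ≤ ((1 + z) / (1 - z)).re := by
  rw [Complex.div_re]
  have h1 : z.re * z.re + z.im * z.im ≤ 1 := by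
    have := Complex.sq_norm z
    rw [Complex.normSq_apply] at this
    nlinarith [norm_nonneg z]
  rw [← add_div]
  refine div_nonneg ?_ (Complex.normSq_nonneg _)
  simp
  nlinarith

theorem gen_continuousOn (j : ℕ) {t : ℝ} (ht : 0 ≤ t) :
    ContinuousOn (gen i0 i1 j t) (closedBall (0 : EuclideanSpace ℂ (Fin n)) 1) := by
  intro x hx
  by_cases h : 1 - x i0 = 0
  · have h0 : gen i0 i1 j t x = 0 := by simp [gen, h]
    rw [ContinuousWithinAt, h0]
    have hc : Tendsto (fun y : EuclideanSpace ℂ (Fin n) => ‖1 - y i0‖)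
        (𝓝[closedBall 0 1] x) (𝓝 0) := by
      have : Continuous fun y : EuclideanSpace ℂ (Fin n) => ‖1 - y i0‖ := by fun_prop
      have h2 := this.tendsto x
      rw [h, norm_zero] at h2
      exact h2.mono_left nhdsWithin_le_nhds
    refine squeeze_zero_norm' ?_ hc
    filter_upwards [self_mem_nhdsWithin] with y hy
    rw [gen, norm_mul, norm_mul, norm_pow]
    have h1 : ‖y i1‖ ^ j ≤ 1 := pow_le_one₀ (norm_nonneg _) (coord_le hy i1)
    have h2 := norm_exp_le ht (re_cayley (coord_le hy i0))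
    calc _ ≤ 1 * ‖1 - y i0‖ * 1 := by gcongr
      _ = _ := by ring
  · refine ContinuousAt.continuousWithinAt ?_
    unfold gen
    fun_prop (disch := exact h)

theorem gen_differentiableOn (j : ℕ) (t : ℝ) :
    DifferentiableOn ℂ (gen i0 i1 j t) (ball (0 : EuclideanSpace ℂ (Fin n)) 1) := by
  intro x hx
  have h : 1 - x i0 ≠ 0 := by
    intro h
    have h1 : x i0 = 1 := by linear_combination -h
    have h2 := (PiLp.norm_apply_le x i0).trans_lt (mem_ball_zero_iff.1 hx)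
    simp [h1] at h2
  refine DifferentiableAt.differentiableWithinAt ?_
  unfold gen
  fun_prop (disch := exact h)

theorem gen_crv (h : i0 ≠ i1) (j : ℕ) (t δ : ℝ) {x : ℝ} (hx : 0 ≤ x) :
    gen i0 i1 j t (crv i0 i1 x (exp (-(δ * (x : ℂ))))) =
      (((2 / (x + 2)) ^ (j + 1) * Real.exp (-t) * Real.exp (-((t + j * δ) * x)) : ℝ) : ℂ) := by
  have hne : (x : ℂ) + 2 ≠ 0 := add_two_ne (by simpa using hx)
  have h1 : 1 - (x : ℂ) / (x + 2) = 2 / (x + 2) := by field_simp; ring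
  have h2 : (1 + (x : ℂ) / (x + 2)) / (2 / (x + 2)) = x + 1 := by field_simp; ring
  rw [gen, crv, pt_zero _ _ h, pt_one _ _ h, h1, h2, mul_pow, ← Complex.exp_nat_mul]
  push_cast
  rw [mul_assoc (_ ^ (j + 1)), ← Complex.exp_add, pow_succ]
  have : cexp (-(t : ℂ) + -((t + j * δ) * x)) =
      cexp (j * -(δ * x)) * cexp (-(t * (x + 1))) := by
    rw [← Complex.exp_add]; congr 1; ring
  rw [this]; ring

/-- The exponents of the generators. -/
def tt (j : ℕ) : ℝ := 1 / (j + 1)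
/-- The slopes of the curves. -/
def dd (l : ℕ) : ℝ := 1 / (l + 1) ^ 2
/-- The decay rates along the curves. -/
def WW (l : ℕ) : ℝ := tt l + l * dd l

theorem tt_pos (j : ℕ) : 0 < tt j := by unfold tt; positivity
theorem dd_pos (j : ℕ) : 0 < dd j := by unfold dd; positivity
theorem WW_nonneg (j : ℕ) : 0 ≤ WW j := by
  have := tt_pos j; have := dd_pos j; unfold WW; positivity

theorem gap_eq (j l : ℕ) :
    tt j + j * dd l - WW l = ((j : ℝ) - l) ^ 2 / ((j + 1) * (l + 1) ^ 2) := by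
  unfold WW tt dd
  field_simp
  ring

theorem gap_nonneg (j l : ℕ) : 0 ≤ tt j + j * dd l - WW l := by
  rw [gap_eq]; positivity

theorem gap_pos {j l : ℕ} (h : j ≠ l) : 0 < tt j + j * dd l - WW l := by
  rw [gap_eq]
  have : (j : ℝ) - l ≠ 0 := sub_ne_zero.2 (by exact_mod_cast h)
  positivity

theorem dd_anti {l k : ℕ} (h : l ≤ k) : dd k ≤ dd l := by
  unfold dd
  have : (l : ℝ) ≤ k := by exact_mod_cast h
  gcongr

theorem final_contra (k : ℕ) {M η : ℝ} (hη : 0 < η)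
    (h : ∀ x : ℝ, 0 ≤ x → ‖(Matrix.of fun l m : Fin (k + 1) =>
      (((2 / (x + 2)) ^ ((m : ℕ) + 1) * Real.exp (-tt m) *
        Real.exp (-((tt m + (m : ℕ) * dd l) * x)) : ℝ) : ℂ)).det‖ ≤
      M * Real.exp (-((∑ l : Fin (k + 1), WW l + η) * x))) : False := by
  set B : ℝ → Matrix (Fin (k + 1)) (Fin (k + 1)) ℂ := fun x => Matrix.of fun l m =>
    (Real.exp (-((tt m + (m : ℕ) * dd l - WW l) * x)) : ℂ) with hB
  have hlim : Tendsto (fun x => ‖(B x).det‖) atTop (𝓝 1) := by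
    have h1 : Tendsto B atTop (𝓝 1) := by
      refine tendsto_pi_nhds.2 fun l => tendsto_pi_nhds.2 fun m => ?_
      by_cases hlm : l = m
      · subst hlm
        have : tt l + (l : ℕ) * dd l - WW l = 0 := by simp [WW]
        simp only [hB, Matrix.of_apply, this]
        simp
      · rw [Matrix.one_apply_ne hlm]
        have hp := gap_pos (j := m) (l := l) (fun h => hlm (Fin.ext h).symm)
        have h2 : Tendsto (fun x : ℝ => Real.exp (-((tt m + (m : ℕ) * dd l - WW l) * x)))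
            atTop (𝓝 0) :=
          Real.tendsto_exp_neg_atTop_nhds_zero.comp (tendsto_id.const_mul_atTop hp)
        have h3 := (Complex.continuous_ofReal.tendsto 0).comp h2
        simpa [hB, Function.comp_def] using h3
    have h2 := ((Continuous.matrix_det continuous_id).norm.tendsto
      (1 : Matrix (Fin (k + 1)) (Fin (k + 1)) ℂ)).comp h1
    simpa [Function.comp_def] using h2
  set N : ℕ := ∑ m : Fin (k + 1), ((m : ℕ) + 1) with hN
  set c : ℝ := ∏ m : Fin (k + 1), Real.exp (-tt m) with hc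
  have hc0 : 0 < c := Finset.prod_pos fun _ _ => Real.exp_pos _
  have hbound : ∀ x : ℝ, 0 ≤ x →
      ‖(B x).det‖ ≤ M / (c * 2 ^ N) * ((x + 2) ^ N * Real.exp (-(η * x))) := by
    intro x hx
    have h1 := h x hx
    have h2 : (Matrix.of fun l m : Fin (k + 1) =>
      (((2 / (x + 2)) ^ ((m : ℕ) + 1) * Real.exp (-tt m) *
        Real.exp (-((tt m + (m : ℕ) * dd l) * x)) : ℝ) : ℂ)) =
        Matrix.of fun l m : Fin (k + 1) => ((Real.exp (-(WW l * x)) : ℝ) : ℂ) *
          (Matrix.of fun l m : Fin (k + 1) =>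
            (((2 / (x + 2)) ^ ((m : ℕ) + 1) * Real.exp (-tt m) : ℝ) : ℂ) * B x l m) l m := by
      ext l m
      simp only [Matrix.of_apply, hB, ← Complex.ofReal_mul]
      congr 1
      rw [mul_left_comm (Real.exp (-(WW l * x))), ← Real.exp_add]
      congr 2
      ring
    rw [h2, Matrix.det_mul_column, Matrix.det_mul_row, ← Complex.ofReal_prod,
      ← Complex.ofReal_prod, norm_mul, norm_mul, Complex.norm_real, Complex.norm_real,
      ← Real.exp_sum, Finset.prod_mul_distrib, Finset.prod_pow_eq_pow_sum, ← hN, ← hc,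
      Real.norm_of_nonneg (Real.exp_pos _).le, Real.norm_of_nonneg (by positivity)] at h1
    have h3 : Real.exp (-((∑ l : Fin (k + 1), WW l + η) * x)) =
        Real.exp (∑ l : Fin (k + 1), -(WW l * x)) * Real.exp (-(η * x)) := by
      rw [← Real.exp_add, Finset.sum_neg_distrib, ← Finset.sum_mul]; congr 1; ring
    rw [h3, mul_left_comm M] at h1
    have h4 := le_of_mul_le_mul_left h1 (Real.exp_pos _)
    have h5 : (0 : ℝ) < (x + 2) ^ N := by positivity
    rw [div_pow] at h4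
    rw [div_mul_eq_mul_div, le_div_iff₀ (by positivity)]
    calc ‖(B x).det‖ * (c * 2 ^ N)
        = (2 ^ N / (x + 2) ^ N * c * ‖(B x).det‖) * (x + 2) ^ N := by field_simp
      _ ≤ (M * Real.exp (-(η * x))) * (x + 2) ^ N := by gcongr
      _ = _ := by ring
  have hz : Tendsto (fun x : ℝ => M / (c * 2 ^ N) * ((x + 2) ^ N * Real.exp (-(η * x))))
      atTop (𝓝 0) := by
    have h1 : Tendsto (fun x : ℝ => η * (x + 2)) atTop atTop :=
      (tendsto_atTop_add_const_right _ _ tendsto_id).const_mul_atTop hη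
    have h2 := ((Real.tendsto_pow_mul_exp_neg_atTop_nhds_zero N).comp h1).const_mul
      (M / (c * 2 ^ N) * (Real.exp (2 * η) / η ^ N))
    rw [mul_zero] at h2
    refine h2.congr fun x => ?_
    have : Real.exp (-(η * x)) = Real.exp (2 * η) * Real.exp (-(η * (x + 2))) := by
      rw [← Real.exp_add]; congr 1; ring
    simp only [Function.comp_apply, this, mul_pow]
    field_simp
  have := le_of_tendsto_of_tendsto hlim hz ((eventually_ge_atTop 0).mono hbound)
  linarith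

end Pool.Agent.H44Z.Ball
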