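import Mathlib
import Pool.Agent.H44Z.BallGeom

set_option autoImplicit false

open Filter Topology Asymptotics Complex Metric

namespace Pool.Agent.H44Z.Ball

theorem main_abstract {n : ℕ} (i0 i1 : Fin n) (hne : i0 ≠ i1) {A : Type*} [NormedCommRing A]
    (ev : closedBall (0 : EuclideanSpace ℂ (Fin n)) 1 → A →+* ℂ)
    (hev : ∀ x a, ‖ev x a‖ ≤ ‖a‖)
    (hdiff : ∀ a : A, DifferentiableOn ℂ (fun x => ev (toBall x) a)
      (ball (0 : EuclideanSpace ℂ (Fin n)) 1))
    (hcont : ∀ a : A, ContinuousOn (fun x => ev (toBall x) a)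
      (closedBall (0 : EuclideanSpace ℂ (Fin n)) 1))
    (g : ℕ → A) (hg : ∀ x j, ev x (g j) = gen i0 i1 j (tt j) x) :
    ∃ ζ : Metric.closedBall (0 : EuclideanSpace ℂ (Fin n)) 1,
      ‖(ζ : EuclideanSpace ℂ (Fin n))‖ = 1 ∧
      ∃ J : Ideal A, IsClosed (J : Set A) ∧
        (∀ w : Metric.closedBall (0 : EuclideanSpace ℂ (Fin n)) 1,
          (∀ f ∈ J, ev w f = 0) ↔ w = ζ) ∧
        ∀ I : Ideal A, I.FG → closure (I : Set A) ≠ (J : Set A) := by
  let Φ : ℕ → ℂ → A →+* ℂ := fun l w => ev (toBall (crv i0 i1 w (exp (-(dd l * w)))))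
  let Ψ : ℝ → A →+* ℂ := fun x => ev (toBall (crv i0 i1 x 0))
  have hb : ∀ l w a, ‖Φ l w a‖ ≤ ‖a‖ := fun l w a => hev _ a
  have hΨ : ∀ x a, ‖Ψ x a‖ ≤ ‖a‖ := fun x a => hev _ a
  have hd : ∀ l a, DiffContOnCl ℂ (fun w => Φ l w a) {w | 0 < w.re} := by
    intro l a
    constructor
    · refine (hdiff a).comp (f := fun w : ℂ => crv i0 i1 w (exp (-(dd l * w)))) ?_ ?_
      · intro w hw
        have h2 := add_two_ne (le_of_lt hw)
        refine DifferentiableAt.differentiableWithinAt ?_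
        unfold crv pt
        fun_prop (disch := exact h2)
      · intro w hw
        exact crv_mem_ball i0 i1 hne hw (norm_exp_le (dd_pos l).le (le_of_lt hw))
    · rw [Complex.closure_setOfPred_lt_re]
      refine (hcont a).comp (f := fun w : ℂ => crv i0 i1 w (exp (-(dd l * w)))) ?_ ?_
      · intro w hw
        have h2 := add_two_ne hw
        refine ContinuousAt.continuousWithinAt ?_
        unfold crv pt
        fun_prop (disch := exact h2)
      · intro w hw
        exact crv_mem_closedBall i0 i1 hne hw (norm_exp_le (dd_pos l).le hw)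
  have hS : ∀ (l : ℕ) a (x : ℝ), 0 < x →
      ‖Φ l x a - Ψ x a‖ ≤ 2 * ‖a‖ * Real.exp (-(dd l * x)) := by
    intro l a x hx
    have hx' : 0 < (x : ℂ).re := by simpa using hx
    have hnorm : ‖exp (-(dd l * (x : ℂ)))‖ = Real.exp (-(dd l * x)) := by
      rw [Complex.norm_exp]; simp
    have h1 := Complex.dist_le_div_mul_dist_of_mapsTo_ball
      (f := fun μ : ℂ => ev (toBall (crv i0 i1 x μ)) a) (c := 0) (R₁ := 1) (R₂ := 2 * ‖a‖)
      (z := exp (-(dd l * (x : ℂ)))) ?_ ?_ ?_
    · rw [dist_eq_norm, dist_zero_right, hnorm, div_one] at h1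
      exact h1
    · refine (hdiff a).comp (f := fun μ : ℂ => crv i0 i1 x μ) ?_ ?_
      · intro w hw
        refine DifferentiableAt.differentiableWithinAt ?_
        unfold crv pt
        fun_prop
      · intro w hw
        exact crv_mem_ball i0 i1 hne hx' (mem_ball_zero_iff.1 hw).le
    · intro w _
      rw [mem_closedBall, dist_eq_norm]
      refine (norm_sub_le _ _).trans ?_
      linarith [hev (toBall (crv i0 i1 x w)) a, hev (toBall (crv i0 i1 x 0)) a]
    · rw [mem_ball_zero_iff, hnorm, Real.exp_lt_one_iff]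
      have := mul_pos (dd_pos l) hx
      linarith
  have hζn : ‖pt i0 i1 1 0‖ = 1 := by
    have := norm_pt_sq i0 i1 hne 1 0
    simp only [norm_one, norm_zero] at this
    nlinarith [norm_nonneg (pt i0 i1 1 0)]
  let ζ : closedBall (0 : EuclideanSpace ℂ (Fin n)) 1 :=
    ⟨pt i0 i1 1 0, mem_closedBall_zero_iff.2 hζn.le⟩
  have hΦg : ∀ l j (x : ℝ), 0 ≤ x → Φ l x (g j) =
      (((2 / (x + 2)) ^ (j + 1) * Real.exp (-tt j) *
        Real.exp (-((tt j + j * dd l) * x)) : ℝ) : ℂ) := by
    intro l j x hx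
    have hx' : 0 ≤ (x : ℂ).re := by simpa using hx
    rw [← gen_crv i0 i1 hne j (tt j) (dd l) hx]
    simp only [Φ]
    rw [toBall_of_mem (crv_mem_closedBall i0 i1 hne hx' (norm_exp_le (dd_pos l).le hx')), hg]
  let J : Ideal A := decayIdeal (A := A) Φ WW hb ⊓ RingHom.ker (ev ζ)
  have hgJ : ∀ j, g j ∈ J := by
    intro j
    refine ⟨fun l => IsBigO.of_bound 1 ?_, ?_⟩
    · filter_upwards [eventually_ge_atTop 0] with x hx
      rw [hΦg l j x hx, Complex.norm_real, Real.norm_of_nonneg (by positivity),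
        Real.norm_of_nonneg (by positivity)]
      have h1 : (2 / (x + 2)) ^ (j + 1) ≤ 1 :=
        pow_le_one₀ (by positivity) ((div_le_one (by positivity)).2 (by linarith))
      have h2 : Real.exp (-tt j) ≤ 1 := Real.exp_le_one_iff.2 (by linarith [tt_pos j])
      have h3 : Real.exp (-((tt j + j * dd l) * x)) ≤ Real.exp (-(WW l * x)) := by
        refine Real.exp_le_exp.2 ?_
        nlinarith [mul_nonneg (gap_nonneg j l) hx]
      calc _ ≤ 1 * 1 * Real.exp (-(WW l * x)) := by gcongr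
        _ = _ := by ring
    · change ev ζ (g j) = 0
      rw [hg]
      change gen i0 i1 j (tt j) (pt i0 i1 1 0) = 0
      simp [gen, pt_zero _ _ hne]
  have hJc : IsClosed (J : Set A) :=
    (decayIdeal_closed Φ WW hb hd WW_nonneg).inter
      (isClosed_eq (continuous_ev (hev ζ)) continuous_const)
  refine ⟨ζ, hζn, J, hJc, fun w => ⟨fun hw => ?_, fun hw f hf => ?_⟩, fun I hI hIJ => ?_⟩
  · have h1 : gen i0 i1 0 (tt 0) w = 0 := hg w 0 ▸ hw (g 0) (hgJ 0)
    have h2 : w.1 i0 = 1 := by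
      simp only [gen, pow_zero, one_mul, mul_eq_zero, Complex.exp_ne_zero, or_false] at h1
      linear_combination -h1
    have h3 : ‖w.1‖ ^ 2 ≤ 1 := by
      have := mem_closedBall_zero_iff.1 w.2
      nlinarith [norm_nonneg w.1]
    rw [EuclideanSpace.norm_sq_eq, ← Finset.add_sum_erase _ _ (Finset.mem_univ i0), h2] at h3
    have h4 : ∑ i ∈ Finset.univ.erase i0, ‖w.1 i‖ ^ 2 = 0 := by
      refine le_antisymm (by simpa using h3) (Finset.sum_nonneg fun _ _ => sq_nonneg _)
    rw [Finset.sum_eq_zero_iff_of_nonneg fun _ _ => sq_nonneg _] at h4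
    refine Subtype.ext ?_
    ext i
    change w.1 i = pt i0 i1 1 0 i
    by_cases hi : i = i0
    · rw [hi, h2, pt_zero _ _ hne]
    · have := h4 i (Finset.mem_erase.2 ⟨hi, Finset.mem_univ _⟩)
      have h5 : w.1 i = 0 := by simpa using this
      simp [h5, pt, hi]
  · rw [hw]
    exact hf.2
  · obtain ⟨k, f, hf⟩ := Submodule.fg_iff_exists_fin_generating_family.1 hI
    have hf' : Ideal.span (Set.range f) = I := hf
    have hfJ : ∀ i, f i ∈ decayIdeal Φ WW hb := by
      intro i
      have h1 : f i ∈ closure (I : Set A) :=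
        subset_closure (hf' ▸ Ideal.subset_span (Set.mem_range_self i))
      rw [hIJ] at h1
      exact h1.1
    refine final_contra k (M := (Fintype.card (Equiv.Perm (Fin (k + 1))) : ℝ) *
      ∏ m : Fin (k + 1), ‖g m‖) (dd_pos k) fun x hx => ?_
    have := det_decay Φ WW Ψ hb hΨ hd WW_nonneg (k := k) (dd_pos k).le ?_ f hfJ
      (fun m => g m) (fun m => by rw [hf', hIJ]; exact hgJ m) hx
    · simpa only [hΦg _ _ x hx] using this
    · intro l a y hy
      refine (hS l a y hy).trans ?_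
      have := dd_anti (Nat.lt_succ_iff.1 l.2)
      gcongr

end Pool.Agent.H44Z.Ball
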