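import Mathlib

set_option autoImplicit false

open MeasureTheory Cardinal

noncomputable section

namespace Pool.Agent.H44Z.PropT

/-- The standard product measure on the Cantor space `2^ℕ`. -/
def lam : Measure (ℕ → Bool) :=
  Measure.infinitePi fun _ : ℕ => (PMF.uniformOfFintype Bool).toMeasure

/-- `V m i = {x : x m = i}`. -/
def V (m : ℕ) (i : Bool) : Set (ℕ → Bool) := {x | x m = i}

/-- The atom containing `s` of the finite algebra generated by the sets `V m i`, `m ≤ n`. -/
def atom (n : ℕ) (s : ℕ → Bool) : Set (ℕ → Bool) := {x | ∀ m ≤ n, x m = s m}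

/-- `φ_m(A) = |λ(A ∩ V_m^0) - λ(A ∩ V_m^1)|`. -/
def phi (m : ℕ) (A : Set (ℕ → Bool)) : ℝ :=
  |lam.real (A ∩ V m false) - lam.real (A ∩ V m true)|

/-- `B` is a subalgebra of the Borel algebra containing all clopen sets with property (T). -/
def HasT (B : BooleanSubalgebra (Set (ℕ → Bool))) : Prop :=
  (∀ A ∈ B, MeasurableSet[borel (ℕ → Bool)] A) ∧ (∀ A, IsClopen A → A ∈ B) ∧
    ∀ (p : ℕ) (A : Fin p → Set (ℕ → Bool)), (∀ i, A i ∈ B) → ∀ ε : ℝ, 0 < ε →
      ∃ n : ℕ, 0 < n ∧ ∀ (s : ℕ → Bool) (i : Fin p),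
        (lam.real (A i ∩ atom n s) ≤ ε * lam.real (atom n s) / n ∨
          lam.real (atom n s \ A i) ≤ ε * lam.real (atom n s) / n) ∧
        ∀ m : ℕ, n < m → phi m (A i ∩ atom n s) ≤ ε * lam.real (atom n s) / m

/-- The least cardinality of a maximal subalgebra with property (T). -/
def propT : Cardinal := sInf {c | ∃ B, Maximal HasT B ∧ #B = c}

end Pool.Agent.H44Z.PropT
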