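import Mathlib
import Pool.Agent.H44Z.PropTDefs

set_option autoImplicit false

open MeasureTheory Cardinal Filter Topology

noncomputable section

namespace Pool.Agent.H44Z.PropT

instance lam_prob : IsProbabilityMeasure lam := by
  unfold lam; infer_instance

theorem borel_iff (A : Set (ℕ → Bool)) : MeasurableSet[borel (ℕ → Bool)] A ↔ MeasurableSet A := by
  rw [← BorelSpace.measurable_eq (α := ℕ → Bool)]

theorem lam_cyl (S : Finset ℕ) (s : ℕ → Bool) :
    lam {x | ∀ i ∈ S, x i = s i} = (1 / 2) ^ S.card := by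
  have : {x : ℕ → Bool | ∀ i ∈ S, x i = s i} = Set.pi S fun i => {s i} := by
    ext x; simp
  rw [this, lam, Measure.infinitePi_pi _ (fun _ _ => measurableSet_singleton _)]
  simp [PMF.toMeasure_apply_singleton]

theorem lam_singleton (x : ℕ → Bool) : lam {x} = 0 := by
  have h : ∀ n : ℕ, lam {x} ≤ (1 / 2) ^ n := by
    intro n
    have := lam_cyl (Finset.range n) x
    rw [Finset.card_range] at this
    rw [← this]
    exact measure_mono (by rintro y rfl i _; rfl)
  have h2 : Tendsto (fun n : ℕ => (1 / 2 : ENNReal) ^ n) atTop (𝓝 0) :=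
    ENNReal.tendsto_pow_atTop_nhds_zero_of_lt_one (by norm_num)
  exact le_antisymm (ge_of_tendsto' h2 h) (zero_le)

theorem phi_atom {n m : ℕ} (h : n < m) (s : ℕ → Bool) : phi m (atom n s) = 0 := by
  have key : ∀ b, lam (atom n s ∩ V m b) = (1 / 2) ^ (insert m (Finset.range (n + 1))).card := by
    intro b
    rw [← lam_cyl _ (Function.update s m b)]
    congr 1
    ext x
    simp only [atom, V, Set.mem_inter_iff, Set.mem_ofPred_eq, Finset.mem_insert, Finset.mem_range,
      forall_eq_or_imp, Function.update_self]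
    constructor
    · rintro ⟨h1, h2⟩
      exact ⟨h2, fun i hi => by rw [Function.update_of_ne (by omega), h1 i (by omega)]⟩
    · rintro ⟨h1, h2⟩
      exact ⟨fun i hi => by rw [h2 i (by omega), Function.update_of_ne (by omega)], h1⟩
  simp [phi, Measure.real, key]

theorem clopen_depends {A : Set (ℕ → Bool)} (hA : IsClopen A) :
    ∃ n : ℕ, ∀ k ≥ n, ∀ s, atom k s ⊆ A ∨ atom k s ⊆ Aᶜ := by
  have h1 : ∀ s : ℕ → Bool, ∃ n, PiNat.cylinder s n ⊆ A ∨ PiNat.cylinder s n ⊆ Aᶜ := by
    intro s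
    have hb := PiNat.isTopologicalBasis_cylinders (fun _ : ℕ => Bool)
    have h2 : ∀ U : Set (ℕ → Bool), IsOpen U → s ∈ U → ∃ n, PiNat.cylinder s n ⊆ U := by
      intro U hU hs
      obtain ⟨t, ⟨y, n, rfl⟩, hst, htU⟩ := hb.exists_subset_of_mem_open hs hU
      exact ⟨n, by rwa [PiNat.mem_cylinder_iff_eq.1 hst]⟩
    by_cases hs : s ∈ A
    · obtain ⟨n, hn⟩ := h2 A hA.2 hs
      exact ⟨n, Or.inl hn⟩
    · obtain ⟨n, hn⟩ := h2 Aᶜ hA.1.isOpen_compl hs
      exact ⟨n, Or.inr hn⟩
  choose f hf using h1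
  obtain ⟨t, ht⟩ := isCompact_univ.elim_finite_subcover (fun s => PiNat.cylinder s (f s))
    (fun s => PiNat.isOpen_cylinder _ s _)
    (fun s _ => Set.mem_iUnion.2 ⟨s, PiNat.self_mem_cylinder _ _⟩)
  refine ⟨t.sup f, fun k hk s => ?_⟩
  obtain ⟨y, hy, hs⟩ := Set.mem_iUnion₂.1 (ht (Set.mem_univ s))
  have h3 : atom k s ⊆ PiNat.cylinder y (f y) := by
    intro x hx
    rw [PiNat.mem_cylinder_iff] at hs ⊢
    intro i hi
    have := Finset.le_sup (f := f) hy
    rw [hx i (by omega), hs i hi]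
  exact (hf y).imp h3.trans h3.trans

/-- The clopen algebra. -/
def clop : BooleanSubalgebra (Set (ℕ → Bool)) where
  carrier := {A | IsClopen A}
  supClosed' := fun _ ha _ hb => IsClopen.union ha hb
  infClosed' := fun _ ha _ hb => IsClopen.inter ha hb
  compl_mem' := fun ha => IsClopen.compl ha
  bot_mem' := isClopen_empty

theorem clop_hasT : HasT clop := by
  refine ⟨fun A hA => (borel_iff A).2 (IsClopen.isOpen hA).measurableSet, fun A hA => hA, ?_⟩
  intro p A hA ε hε
  choose f hf using fun i => clopen_depends (A := A i) (hA i)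
  refine ⟨Finset.univ.sup f + 1, Nat.succ_pos _, fun s i => ?_⟩
  have hle := Finset.le_sup (f := f) (Finset.mem_univ i)
  rcases hf i (Finset.univ.sup f + 1) (by omega) s with h | h
  · refine ⟨Or.inr ?_, fun m hm => ?_⟩
    · rw [Set.diff_eq_empty.2 h, measureReal_empty]; positivity
    · rw [Set.inter_eq_right.2 h, phi_atom hm]; positivity
  · have h0 : A i ∩ atom (Finset.univ.sup f + 1) s = ∅ :=
      Set.eq_empty_of_forall_notMem fun x hx => h hx.2 hx.1
    refine ⟨Or.inl ?_, fun m hm => ?_⟩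
    · rw [h0, measureReal_empty]; positivity
    · rw [h0]; simp only [phi, Set.empty_inter, sub_self, abs_zero]; positivity

theorem exists_maximal : ∃ B, Maximal HasT B := by
  obtain ⟨m, -, hm⟩ := zorn_le_nonempty₀ {B | HasT B} (fun c hc hch y hy => by
    have hdir : DirectedOn (· ≤ ·) c := hch.directedOn
    let u : BooleanSubalgebra (Set (ℕ → Bool)) :=
      { carrier := {A | ∃ B ∈ c, A ∈ B}
        supClosed' := by
          rintro a ⟨B, hB, ha⟩ b ⟨C, hC, hb⟩
          obtain ⟨D, hD, h1, h2⟩ := hdir B hB C hC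
          exact ⟨D, hD, D.sup_mem (h1 ha) (h2 hb)⟩
        infClosed' := by
          rintro a ⟨B, hB, ha⟩ b ⟨C, hC, hb⟩
          obtain ⟨D, hD, h1, h2⟩ := hdir B hB C hC
          exact ⟨D, hD, D.inf_mem (h1 ha) (h2 hb)⟩
        compl_mem' := by
          rintro a ⟨B, hB, ha⟩
          exact ⟨B, hB, B.compl_mem ha⟩
        bot_mem' := ⟨y, hy, y.bot_mem⟩ }
    refine ⟨u, ⟨?_, fun A hA => ⟨y, hy, (hc hy).2.1 A hA⟩, ?_⟩, fun z hz A hA => ⟨z, hz, hA⟩⟩
    · rintro A ⟨B, hB, hA⟩
      exact (hc hB).1 A hA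
    · intro p A hA
      have : ∀ t : Finset (Fin p), ∃ D ∈ c, ∀ i ∈ t, A i ∈ D := by
        intro t
        induction t using Finset.induction_on with
        | empty => exact ⟨y, hy, by simp⟩
        | insert i t _ ih =>
          obtain ⟨D, hD, h1⟩ := ih
          obtain ⟨B, hB, h2⟩ := hA i
          obtain ⟨E, hE, h3, h4⟩ := hdir D hD B hB
          refine ⟨E, hE, fun j hj => ?_⟩
          rcases Finset.mem_insert.1 hj with rfl | hj
          · exact h4 h2
          · exact h3 (h1 j hj)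
      obtain ⟨D, hD, h1⟩ := this Finset.univ
      exact (hc hD).2.2 p A fun i => h1 i (Finset.mem_univ i)) clop clop_hasT
  exact ⟨m, hm⟩

/-- The saturation of an algebra by Borel null sets. -/
def sat (B : BooleanSubalgebra (Set (ℕ → Bool))) : BooleanSubalgebra (Set (ℕ → Bool)) where
  carrier := {A | MeasurableSet A ∧ ∃ C ∈ B, A =ᵐ[lam] C}
  supClosed' := by
    rintro a ⟨ha, C, hC, h1⟩ b ⟨hb, D, hD, h2⟩
    exact ⟨ha.union hb, _, B.sup_mem hC hD, h1.union h2⟩
  infClosed' := by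
    rintro a ⟨ha, C, hC, h1⟩ b ⟨hb, D, hD, h2⟩
    exact ⟨ha.inter hb, _, B.inf_mem hC hD, h1.inter h2⟩
  compl_mem' := by
    rintro a ⟨ha, C, hC, h1⟩
    exact ⟨ha.compl, _, B.compl_mem hC, h1.compl⟩
  bot_mem' := ⟨MeasurableSet.empty, _, B.bot_mem, EventuallyEq.rfl⟩

theorem le_sat {B : BooleanSubalgebra (Set (ℕ → Bool))} (hB : HasT B) : B ≤ sat B :=
  fun A hA => ⟨(borel_iff A).1 (hB.1 A hA), A, hA, EventuallyEq.rfl⟩

theorem sat_hasT {B : BooleanSubalgebra (Set (ℕ → Bool))} (hB : HasT B) : HasT (sat B) := by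
  refine ⟨fun A hA => (borel_iff A).2 hA.1, fun A hA => le_sat hB (hB.2.1 A hA), ?_⟩
  intro p A hA ε hε
  choose C hC hAC using fun i => (hA i).2
  obtain ⟨n, hn, h⟩ := hB.2.2 p C hC ε hε
  refine ⟨n, hn, fun s i => ?_⟩
  have e1 : (A i ∩ atom n s : Set _) =ᵐ[lam] (C i ∩ atom n s : Set _) :=
    (hAC i).inter EventuallyEq.rfl
  have e2 : (atom n s \ A i : Set _) =ᵐ[lam] (atom n s \ C i : Set _) :=
    EventuallyEq.diff EventuallyEq.rfl (hAC i)
  have e3 : ∀ m, phi m (A i ∩ atom n s) = phi m (C i ∩ atom n s) := fun m => by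
    unfold phi
    rw [measureReal_congr (e1.inter (EventuallyEq.refl _ (V m false))),
      measureReal_congr (e1.inter (EventuallyEq.refl _ (V m true)))]
  rw [measureReal_congr e1, measureReal_congr e2]
  simp only [e3]
  exact h s i

theorem card_maximal {B : BooleanSubalgebra (Set (ℕ → Bool))} (hB : Maximal HasT B) :
    #B = 𝔠 := by
  apply le_antisymm
  · have hb := PiNat.isTopologicalBasis_cylinders (fun _ : ℕ => Bool)
    have h1 : #{s : Set (ℕ → Bool) | ∃ (x : ℕ → Bool) (n : ℕ), s = PiNat.cylinder x n} ≤ 𝔠 := by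
      have : {s : Set (ℕ → Bool) | ∃ (x : ℕ → Bool) (n : ℕ), s = PiNat.cylinder x n} =
          Set.range fun p : (ℕ → Bool) × ℕ => PiNat.cylinder p.1 p.2 := by
        ext s
        simp [eq_comm]
      rw [this]
      refine Cardinal.mk_range_le.trans ?_
      simp
    have h2 := MeasurableSpace.cardinal_measurableSet_le_continuum h1
    rw [← hb.borel_eq_generateFrom] at h2
    exact (Cardinal.mk_le_mk_of_subset (fun A hA => hB.prop.1 A hA)).trans h2
  · have h1 : ∀ x : ℕ → Bool, ({x} : Set (ℕ → Bool)) ∈ B := fun x =>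
      hB.le_of_ge (sat_hasT hB.prop) (le_sat hB.prop)
        ⟨measurableSet_singleton x, _, B.bot_mem, ae_eq_empty.2 (lam_singleton x)⟩
    have h2 : Function.Injective fun x : ℕ → Bool => (⟨{x}, h1 x⟩ : B) := fun x y h =>
      Set.singleton_injective (congrArg Subtype.val h)
    simpa using Cardinal.mk_le_of_injective h2

theorem propT_eq : propT = 𝔠 := by
  obtain ⟨B, hB⟩ := exists_maximal
  have : {c | ∃ B, Maximal HasT B ∧ #B = c} = {𝔠} := by
    ext c
    constructor
    · rintro ⟨B, hB, rfl⟩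
      exact card_maximal hB
    · rintro rfl
      exact ⟨B, hB, card_maximal hB⟩
  rw [propT, this, csInf_singleton]

end Pool.Agent.H44Z.PropT
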