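import Mathlib

set_option autoImplicit false

namespace Pool.Agent.H44Z.TypeThree

section Count
variable {A : Type}

/-- pairs of points in one `t`-class -/
def P (t : Setoid A) : Type := {p : A × A // t.r p.1 p.2}

/-- pairs (a `u`-class, a `v`-class) inside one `t`-class -/
def S (t u v : Setoid A) : Setoid (P t) where
  r p q := u.r p.1.1 q.1.1 ∧ v.r p.1.2 q.1.2
  iseqv := ⟨fun _ => ⟨u.refl _, v.refl _⟩, fun h => ⟨u.symm h.1, v.symm h.2⟩,
    fun h k => ⟨u.trans h.1 k.1, v.trans h.2 k.2⟩⟩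

instance [Finite A] (t : Setoid A) : Finite (P t) := by
  unfold P; infer_instance

/-- the double counting injection -/
theorem exists_inj (t x x' X y y' Y o : Setoid A)
    (hxt : x ≤ t) (hyt : y ≤ t) (hxX : x ≤ X) (hx'X : x' ≤ X) (hyY : y ≤ Y) (hy'Y : y' ≤ Y)
    (hox : o ≤ x) (hoy : o ≤ y)
    (hXY : ∀ a b, X.r a b → Y.r a b → o.r a b)
    (hxx : ∀ a b, x.r a b → x'.r a b → o.r a b)
    (hyy : ∀ a b, y.r a b → y'.r a b → o.r a b)
    (h3 : ∀ a b, t.r a b → ∃ c d e : A, x.r a c ∧ y.r c d ∧ x.r d e ∧ y.r e b) :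
    ∃ f : Quotient (S t x y) → Quotient (S t x' y'), Function.Injective f := by
  classical
  choose c d e h1 h2 h3 h4 using h3
  let g : P t → P t := fun p =>
    ⟨(e p.1.1 p.1.2 p.2, c p.1.1 p.1.2 p.2),
      t.symm (t.trans (hyt (h2 _ _ p.2)) (hxt (h3 _ _ p.2)))⟩
  refine ⟨fun q => Quotient.mk _ (g q.out), ?_⟩
  intro q q' h
  have h' : (S t x' y').r (g q.out) (g q'.out) := Quotient.exact h
  obtain ⟨he, hc⟩ := h'
  set p := q.out with hp
  set p' := q'.out with hp'
  have he : x'.r (e p.1.1 p.1.2 p.2) (e p'.1.1 p'.1.2 p'.2) := he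
  have hc : y'.r (c p.1.1 p.1.2 p.2) (c p'.1.1 p'.1.2 p'.2) := hc
  have hdX : X.r (d p.1.1 p.1.2 p.2) (d p'.1.1 p'.1.2 p'.2) :=
    X.trans (hxX (h3 _ _ p.2)) (X.trans (hx'X he) (X.symm (hxX (h3 _ _ p'.2))))
  have hdY : Y.r (d p.1.1 p.1.2 p.2) (d p'.1.1 p'.1.2 p'.2) :=
    Y.trans (Y.symm (hyY (h2 _ _ p.2))) (Y.trans (hy'Y hc) (hyY (h2 _ _ p'.2)))
  have hd := hXY _ _ hdX hdY
  have hex : x.r (e p.1.1 p.1.2 p.2) (e p'.1.1 p'.1.2 p'.2) :=
    x.trans (x.symm (h3 _ _ p.2)) (x.trans (hox hd) (h3 _ _ p'.2))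
  have hcy : y.r (c p.1.1 p.1.2 p.2) (c p'.1.1 p'.1.2 p'.2) :=
    y.trans (h2 _ _ p.2) (y.trans (hoy hd) (y.symm (h2 _ _ p'.2)))
  have heo := hxx _ _ hex he
  have hco := hyy _ _ hcy hc
  have hpp : (S t x y).r p p' :=
    ⟨x.trans (h1 _ _ p.2) (x.trans (hox hco) (x.symm (h1 _ _ p'.2))),
     y.trans (y.symm (h4 _ _ p.2)) (y.trans (hoy heo) (h4 _ _ p'.2))⟩
  rw [← Quotient.out_eq q, ← Quotient.out_eq q']
  exact Quotient.sound hpp

/-- if there is an injection from the finer pairs to the coarser pairs, nothing is merged -/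
theorem le_of_inj [Finite A] (t x z y : Setoid A) (hxz : x ≤ z) (hzt : z ≤ t)
    (f : Quotient (S t x y) → Quotient (S t z y)) (hf : Function.Injective f) : z ≤ x := by
  let π : Quotient (S t x y) → Quotient (S t z y) :=
    Quotient.map id (fun _ _ h => ⟨hxz h.1, h.2⟩)
  have hπ : Function.Surjective π := by
    intro q
    obtain ⟨p, rfl⟩ := Quotient.exists_rep q
    exact ⟨Quotient.mk _ p, rfl⟩
  obtain ⟨s, hs⟩ := hπ.hasRightInverse
  have hsi : Function.Injective s := hs.injective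
  have hbij : Function.Surjective (s ∘ f) :=
    Finite.surjective_of_injective (hsi.comp hf)
  have hss : Function.Surjective s := hbij.of_comp
  have hπi : Function.Injective π := by
    intro a b hab
    obtain ⟨a', rfl⟩ := hss a
    obtain ⟨b', rfl⟩ := hss b
    rw [hs a', hs b'] at hab
    rw [hab]
  intro a b hab
  have h : π (Quotient.mk _ ⟨(a, b), hzt hab⟩) = π (Quotient.mk _ ⟨(b, b), t.refl b⟩) :=
    Quotient.sound ⟨hab, y.refl b⟩
  exact (Quotient.exact (hπi h)).1

end Count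

/-- The nine-element lattice: `0 < x1, x2 < x2' < X < 1` (with `x1 < X`), `0 < y1, y2 < Y < 1`. -/
inductive L9 : Type
  | o | x1 | x2 | x3 | X | y1 | y2 | Y | t
  deriving DecidableEq, Fintype

namespace L9

def leb : L9 → L9 → Bool
  | o, _ => true
  | _, t => true
  | x1, x1 => true
  | x1, X => true
  | x2, x2 => true
  | x2, x3 => true
  | x2, X => true
  | x3, x3 => true
  | x3, X => true
  | X, X => true
  | y1, y1 => true
  | y1, Y => true
  | y2, y2 => true
  | y2, Y => true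
  | Y, Y => true
  | _, _ => false

def sup' (a b : L9) : L9 :=
  if leb a b then b else if leb b a then a else
  if leb a X && leb b X then X else if leb a Y && leb b Y then Y else t

def inf' (a b : L9) : L9 :=
  if leb a b then a else if leb b a then b else o

instance : LE L9 := ⟨fun a b => leb a b = true⟩

instance : DecidableRel (α := L9) (· ≤ ·) := fun a b => inferInstanceAs (Decidable (leb a b = true))

instance lat : Lattice L9 where
  le_refl := by decide
  le_trans := by decide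
  le_antisymm := by decide
  sup := sup'
  inf := inf'
  le_sup_left := by decide
  le_sup_right := by decide
  sup_le := by decide
  inf_le_left := by decide
  inf_le_right := by decide
  le_inf := by decide

theorem no_rep (A : Type) [Finite A] (φ : LatticeHom L9 (Setoid A))
    (hφ : Function.Injective φ)
    (h3 : ∀ (x y : L9) (a b : A), (φ (x ⊔ y)).r a b ↔
      ∃ c d e : A, (φ x).r a c ∧ (φ y).r c d ∧ (φ x).r d e ∧ (φ y).r e b) : False := by
  have mono : ∀ a b : L9, a ≤ b → φ a ≤ φ b := fun a b h => OrderHomClass.mono φ h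
  have meet : ∀ u v : L9, u ⊓ v = o → ∀ a b, (φ u).r a b → (φ v).r a b → (φ o).r a b := by
    intro u v h a b h1 h2
    rw [← h, map_inf]
    exact ⟨h1, h2⟩
  have join : ∀ u v : L9, u ⊔ v = t → ∀ a b, (φ t).r a b →
      ∃ c d e : A, (φ u).r a c ∧ (φ v).r c d ∧ (φ u).r d e ∧ (φ v).r e b := by
    intro u v h a b h1
    rw [← h] at h1
    exact (h3 u v a b).1 h1
  obtain ⟨f, hf⟩ := exists_inj (φ t) (φ x2) (φ x1) (φ X) (φ y2) (φ y1) (φ Y) (φ o)
    (mono _ _ (by decide)) (mono _ _ (by decide)) (mono _ _ (by decide)) (mono _ _ (by decide))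
    (mono _ _ (by decide)) (mono _ _ (by decide)) (mono _ _ (by decide)) (mono _ _ (by decide))
    (meet _ _ rfl) (meet _ _ rfl) (meet _ _ rfl) (join _ _ rfl)
  obtain ⟨g, hg⟩ := exists_inj (φ t) (φ x1) (φ x3) (φ X) (φ y1) (φ y2) (φ Y) (φ o)
    (mono _ _ (by decide)) (mono _ _ (by decide)) (mono _ _ (by decide)) (mono _ _ (by decide))
    (mono _ _ (by decide)) (mono _ _ (by decide)) (mono _ _ (by decide)) (mono _ _ (by decide))
    (meet _ _ rfl) (meet _ _ rfl) (meet _ _ rfl) (join _ _ rfl)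
  have h := le_of_inj (φ t) (φ x2) (φ x3) (φ y2) (mono _ _ (by decide)) (mono _ _ (by decide))
    (g ∘ f) (hg.comp hf)
  have h' : φ x2 = φ x3 := le_antisymm (mono _ _ (by decide)) h
  exact absurd (hφ h') (by decide)

end L9

end Pool.Agent.H44Z.TypeThree
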